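import Mathlib

set_option autoImplicit false

namespace Pool.Agent.Results.MP_ecbd44_co.Full

open Polynomial Finset

/-- `H d n = x^n` for `n < d`, and `x H(n-1) + (n-1)(n-2)...(n-d+1) H(n-d)` for `n ≥ d`. -/
noncomputable def H (d : ℕ) (n : ℕ) : ℤ[X] :=
  if h : d ≤ n ∧ 0 < d then
    X * H d (n - 1) + ((n - 1).descFactorial (d - 1) : ℤ[X]) * H d (n - d)
  else X ^ n
termination_by n
decreasing_by all_goals omega

/-- The `n × n` Hankel matrix. -/
noncomputable def M (d n : ℕ) : Matrix (Fin n) (Fin n) ℤ[X] := fun i j => H d (i + j)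

lemma H_zero (d : ℕ) : H d 0 = 1 := by
  rw [H, dif_neg (by omega)]; simp

lemma H_succ (e n : ℕ) :
    H (e + 1) (n + 1) = X * H (e + 1) n + (n.descFactorial e : ℤ[X]) * H (e + 1) (n - e) := by
  by_cases h : e ≤ n
  · conv_lhs => rw [H, dif_pos (by omega)]
    simp
  · rw [Nat.descFactorial_of_lt (by omega), H, dif_neg (by omega), H, dif_neg (by omega)]
    simp [pow_succ, mul_comm]

noncomputable def Lam (d i : ℕ) (P : ℤ[X][X]) : ℤ[X] :=
  ∑ a ∈ range (i + 1), (i.descFactorial a : ℤ[X]) * H d (i - a) * P.coeff a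

lemma Lam_add (d i : ℕ) (P Q : ℤ[X][X]) : Lam d i (P + Q) = Lam d i P + Lam d i Q := by
  simp [Lam, mul_add, sum_add_distrib]

lemma Lam_mono (d i a : ℕ) (c : ℤ[X]) :
    Lam d i (monomial a c) = (i.descFactorial a : ℤ[X]) * H d (i - a) * c := by
  unfold Lam
  rw [sum_eq_single a]
  · simp
  · intro b _ hb; simp [coeff_monomial, hb.symm]
  · intro h
    rw [Nat.descFactorial_of_lt (by simpa using h)]; simp

noncomputable def T (e : ℕ) : Module.End ℤ[X] ℤ[X][X] :=
  derivative + LinearMap.mulLeft ℤ[X] (X ^ e)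

noncomputable def S (e : ℕ) : Module.End ℤ[X] ℤ[X][X] :=
  T e + algebraMap ℤ[X] (Module.End ℤ[X] ℤ[X][X]) X

lemma desc_add (i a e : ℕ) :
    i.descFactorial (a + e) = i.descFactorial a * (i - a).descFactorial e := by
  induction e with
  | zero => simp
  | succ e ih =>
    rw [← add_assoc, Nat.descFactorial_succ, Nat.descFactorial_succ, ih, Nat.sub_sub]; ring

lemma desc_succ (i a : ℕ) :
    (i + 1).descFactorial (a + 1) = i.descFactorial (a + 1) + (a + 1) * i.descFactorial a := by
  rw [Nat.succ_descFactorial_succ, Nat.descFactorial_succ]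
  by_cases h : a ≤ i
  · rw [← add_mul]; congr 1; omega
  · rw [Nat.descFactorial_of_lt (by omega)]; simp

lemma Lam_step (e i : ℕ) (P : ℤ[X][X]) : Lam (e + 1) i (S e P) = Lam (e + 1) (i + 1) P := by
  induction P using Polynomial.induction_on' with
  | add p q hp hq => rw [map_add, Lam_add, Lam_add, hp, hq]
  | monomial a c =>
    have h1 : S e (monomial a c) =
        monomial (a - 1) (c * a) + monomial (a + e) c + monomial a (X * c) := by
      simp only [S, T, LinearMap.add_apply, LinearMap.mulLeft_apply, derivative_monomial,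
        Module.algebraMap_end_apply, X_pow_mul_monomial, smul_monomial, smul_eq_mul]
    rw [h1, Lam_add, Lam_add, Lam_mono, Lam_mono, Lam_mono, Lam_mono, desc_add]
    have key : (i.descFactorial a : ℤ[X]) * H (e + 1) (i + 1 - a) =
        (i.descFactorial a : ℤ[X]) * (X * H (e + 1) (i - a) +
          ((i - a).descFactorial e : ℤ[X]) * H (e + 1) (i - (a + e))) := by
      by_cases h : a ≤ i
      · rw [show i + 1 - a = (i - a) + 1 by omega, H_succ, Nat.sub_sub]
      · rw [Nat.descFactorial_of_lt (show i < a by omega)]; simp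
    cases a with
    | zero =>
      simp only [Nat.descFactorial_zero, Nat.cast_one, one_mul, Nat.sub_zero, Nat.cast_zero,
        mul_zero, zero_add, Nat.zero_sub] at key ⊢
      rw [key]; ring
    | succ a =>
      rw [desc_succ]
      simp only [Nat.add_sub_cancel, Nat.add_sub_add_right] at key ⊢
      push_cast
      linear_combination (-c) * key

lemma H_eq (e j : ℕ) : ∀ i, H (e + 1) (i + j) = Lam (e + 1) i ((S e ^ j) 1) := by
  induction j with
  | zero =>
    intro i
    have := Lam_mono (e + 1) i 0 1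
    simp only [monomial_zero_left, map_one] at this
    simp [this]
  | succ j ih =>
    intro i
    rw [pow_succ', Module.End.mul_apply, Lam_step, ← ih]
    congr 1; omega

noncomputable def U (e : ℕ) : ℕ → ℤ[X]
  | 0 => 1
  | b + 1 => derivative (U e b) + X ^ e * U e b

lemma T_pow (e b : ℕ) : (T e ^ b) 1 = (U e b).map (C : ℤ →+* ℤ[X]) := by
  induction b with
  | zero => simp [U]
  | succ b ih =>
    rw [pow_succ', Module.End.mul_apply, ih]
    simp [T, U]

lemma S_pow (e j a : ℕ) : ((S e ^ j) 1).coeff a =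
    ∑ b ∈ range (j + 1), C ((U e b).coeff a) * ((j.choose b : ℤ[X]) * X ^ (j - b)) := by
  unfold S
  rw [Commute.add_pow (Algebra.commute_algebraMap_right _ _), LinearMap.sum_apply, finset_sum_coeff]
  refine sum_congr rfl (fun b _ => ?_)
  rw [← map_pow, ← map_natCast (algebraMap ℤ[X] (Module.End ℤ[X] ℤ[X][X])), mul_assoc, ← map_mul,
    Module.End.mul_apply, Module.algebraMap_end_apply, map_smul, T_pow, coeff_smul, coeff_map,
    smul_eq_mul]
  ring

lemma sum_fin (n j : ℕ) (hj : j < n) (f : ℕ → ℤ[X]) (hf : ∀ b, j < b → f b = 0) :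
    ∑ b : Fin n, f b = ∑ b ∈ range (j + 1), f b := by
  rw [Fin.sum_univ_eq_sum_range f n]
  symm
  refine sum_subset (fun b hb => by simp at hb ⊢; omega) (fun b _ hb => hf b (by simpa using hb))

theorem result (d : ℕ) (hd : 2 ≤ d) (n : ℕ) :
    ∃ c : ℤ, (M d n).det = C c ∧ (∏ i ∈ range n, (i.factorial : ℤ)) ∣ c := by
  obtain ⟨e, rfl⟩ : ∃ e, d = e + 1 := ⟨d - 1, by omega⟩
  let L : Matrix (Fin n) (Fin n) ℤ[X] :=
    fun i a => ((i : ℕ).choose a : ℤ[X]) * H (e + 1) (i - a)
  let D : Matrix (Fin n) (Fin n) ℤ := Matrix.diagonal (fun a => ((a : ℕ).factorial : ℤ))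
  let Q : Matrix (Fin n) (Fin n) ℤ := fun a b => (U e b).coeff a
  let B : Matrix (Fin n) (Fin n) ℤ[X] := fun b j => ((j : ℕ).choose b : ℤ[X]) * X ^ ((j : ℕ) - b)
  have hL : L.det = 1 := by
    rw [Matrix.det_of_lowerTriangular L]
    · simp [L, H_zero]
    · intro i a h
      have : (i : ℕ) < a := h
      simp [L, Nat.choose_eq_zero_of_lt this]
  have hB : B.det = 1 := by
    rw [Matrix.det_of_upperTriangular (M := B)]
    · simp [B]
    · intro b j h
      have : (j : ℕ) < b := h
      simp [B, Nat.choose_eq_zero_of_lt this]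
  have hM : M (e + 1) n = L * ((C : ℤ →+* ℤ[X]).mapMatrix (D * Q) * B) := by
    ext1 i j
    have h1 : ∀ a : Fin n, ((C : ℤ →+* ℤ[X]).mapMatrix (D * Q) * B) a j =
        (((a : ℕ).factorial : ℕ) : ℤ[X]) * ((S e ^ (j : ℕ)) 1).coeff a := by
      intro a
      rw [S_pow, ← sum_fin n j j.2
        (fun b => C ((U e b).coeff a) * (((j : ℕ).choose b : ℤ[X]) * X ^ ((j : ℕ) - b)))
        (fun b hb => by simp [Nat.choose_eq_zero_of_lt hb]), mul_sum, Matrix.mul_apply]
      refine sum_congr rfl (fun b _ => ?_)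
      rw [RingHom.mapMatrix_apply, Matrix.map_apply, Matrix.diagonal_mul, map_mul, map_natCast]
      simp only [Q, B]
      ring
    rw [Matrix.mul_apply, M, H_eq, Lam, ← sum_fin n i i.2
      (fun a => ((i : ℕ).descFactorial a : ℤ[X]) * H (e + 1) (i - a) * ((S e ^ (j : ℕ)) 1).coeff a)
      (fun b hb => by simp [Nat.descFactorial_of_lt hb])]
    refine sum_congr rfl (fun a _ => ?_)
    rw [h1, Nat.descFactorial_eq_factorial_mul_choose]
    simp only [L]
    push_cast
    ring
  refine ⟨(D * Q).det, ?_, ?_⟩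
  · rw [hM, Matrix.det_mul, Matrix.det_mul, hL, hB, ← RingHom.map_det]; simp
  · rw [Matrix.det_mul, Matrix.det_diagonal,
      Fin.prod_univ_eq_prod_range (fun i => (i.factorial : ℤ)) n]
    exact dvd_mul_right _ _

end Pool.Agent.Results.MP_ecbd44_co.Full
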